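import Mathlib

/-! Analytic pieces for MP_235410_co (S07659). `f(t) = t^4 - t^3 - 2 t^2 + 2 t - 1`. -/

namespace Pool.Agent.V7H59.AQ

/-- real part of the contracting functional, `z = a + b i`:
`Re (v0 + (z-1) v1 + z (z-1) v2 + (z-1)(z^2-1) v3)` -/
def reZ (a b v0 v1 v2 v3 : ℝ) : ℝ :=
  v0 + (a - 1) * v1 + (a ^ 2 - b ^ 2 - a) * v2 + ((a - 1) * (a ^ 2 - b ^ 2 - 1) - 2 * a * b ^ 2) * v3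

/-- imaginary part -/
def imZ (a b v0 v1 v2 v3 : ℝ) : ℝ :=
  0 * v0 + b * v1 + (2 * a * b - b) * v2 + (b * (a ^ 2 - b ^ 2 - 1) + 2 * a * b * (a - 1)) * v3

/-- expanding functional -/
def exX (t v0 v1 v2 v3 : ℝ) : ℝ :=
  v0 + (t - 1) * v1 + t * (t - 1) * v2 + (t - 1) * (t ^ 2 - 1) * v3

/-- numeric intervals -/
def Ivl (lam mu a b : ℝ) : Prop :=
  (1.69028 < lam ∧ lam < 1.69029) ∧ (-1.50507 < mu ∧ mu < -1.50506) ∧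
  (0.40739 < a ∧ a < 0.40740) ∧ (0.47656 < b ∧ b < 0.47657)

/-- piece R1: existence of the roots -/
def S_R1 : Prop := ∃ lam mu a b : ℝ, Ivl lam mu a b ∧
  lam ^ 4 - lam ^ 3 - 2 * lam ^ 2 + 2 * lam - 1 = 0 ∧
  mu ^ 4 - mu ^ 3 - 2 * mu ^ 2 + 2 * mu - 1 = 0 ∧
  a ^ 4 - 6 * a ^ 2 * b ^ 2 + b ^ 4 - (a ^ 3 - 3 * a * b ^ 2) - 2 * (a ^ 2 - b ^ 2) + 2 * a - 1 = 0 ∧
  4 * a ^ 3 * b - 4 * a * b ^ 3 - (3 * a ^ 2 * b - b ^ 3) - 4 * a * b + 2 * b = 0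

/-- piece R2: linear arithmetic -/
def S_R2 : Prop := ∀ lam mu a b : ℝ, Ivl lam mu a b → ∀ v0 v1 v2 v3 l c : ℝ,
  l = 35 * v0 + 17 * v1 + 45 * v2 + 35 * v3 → c = 13 * v0 + 16 * v1 + 3 * v2 + 27 * v3 →
  |reZ a b v0 v1 v2 v3| ≤ 5.37 → |imZ a b v0 v1 v2 v3| ≤ 5.37 →
  |l| ≤ 88 → |c| ≤ 54 → |2419 * l + 1623 * c| ≤ 248888 → |10773 * l - 25837 * c| ≤ 1403962 →
  |exX lam v0 v1 v2 v3| < 3.85 ∧ |exX mu v0 v1 v2 v3| < 19.2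

/-- piece R3: the contracting functional is bounded on second differences -/
def S_R3 : Prop := ∀ a b : ℝ, (0.40739 < a ∧ a < 0.40740) → (0.47656 < b ∧ b < 0.47657) →
  a ^ 4 - 6 * a ^ 2 * b ^ 2 + b ^ 4 - (a ^ 3 - 3 * a * b ^ 2) - 2 * (a ^ 2 - b ^ 2) + 2 * a - 1 = 0 →
  4 * a ^ 3 * b - 4 * a * b ^ 3 - (3 * a ^ 2 * b - b ^ 3) - 4 * a * b + 2 * b = 0 →
  ∀ (p0 p1 p2 p3 al de : ℕ → ℤ) (par : ℕ → ℕ),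
  (par 0 = 0) → (∀ n, 1 ≤ n → par n < n) →
  (p0 0 = 0 ∧ p1 0 = 0 ∧ p2 0 = 0 ∧ p3 0 = 0) →
  (∀ n, (al n = 0 ∧ de n = 0) ∨ (al n = 1 ∧ de n = 0) ∨ (al n = 0 ∧ de n = 1)) →
  (∀ n, p0 n = p0 (par n) + p3 (par n) + al n) →
  (∀ n, p1 n = p0 (par n) + p2 (par n)) →
  (∀ n, p2 n = p1 (par n) + p3 (par n)) →
  (∀ n, p3 n = p2 (par n) + de n) →
  ∀ (n0 n1 n2 : ℕ) (v0 v1 v2 v3 : ℤ), v0 = p0 n0 - 2 * p0 n1 + p0 n2 → v1 = p1 n0 - 2 * p1 n1 + p1 n2 →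
    v2 = p2 n0 - 2 * p2 n1 + p2 n2 → v3 = p3 n0 - 2 * p3 n1 + p3 n2 →
    |reZ a b v0 v1 v2 v3| ≤ 5.37 ∧ |imZ a b v0 v1 v2 v3| ≤ 5.37

end Pool.Agent.V7H59.AQ
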